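import Mathlib
import Pool.Agent.H423R2.IN4.Fields

set_option autoImplicit false

/-!
# 4-independent sets in cyclic groups: `limsup τ(ℤ_n,[1,4])/√n ≥ 1/√3`
-/

namespace Pool.Agent.Results.MP_364e44_co.LimsupLower

/-- The largest size of a `t`-independent subset of `ℤ_n`: no signed sum of its elements with
between `1` and `t` terms is zero. -/
noncomputable def tau (t : ℤ) (n : ℕ) : ℕ :=
  sSup {k : ℕ | ∃ A : Finset (ZMod n), A.card = k ∧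
    ∀ c : ZMod n → ℤ, 1 ≤ ∑ a ∈ A, |c a| → ∑ a ∈ A, |c a| ≤ t → ∑ a ∈ A, c a • a ≠ 0}

/-- **Theorem.** `τ(ℤ_n,[1,4]) ≥ 3^k - 1` for `n = 3(9^k - 1)`, so
`limsup τ(ℤ_n,[1,4])/√n ≥ 1/√3`. -/
theorem result : (∀ k : ℕ, 1 ≤ k → 3 ^ k - 1 ≤ tau 4 (3 * (9 ^ k - 1))) ∧
    ∀ ε : ℝ, 0 < ε → ∃ᶠ n : ℕ in Filter.atTop,
      1 / Real.sqrt 3 - ε ≤ (tau 4 n : ℝ) / Real.sqrt (n : ℝ) := by
  have h1 : ∀ k : ℕ, 1 ≤ k → 3 ^ k - 1 ≤ tau 4 (3 * (9 ^ k - 1)) := by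
    intro k hk
    have h9 : 9 ≤ 9 ^ k := by
      calc 9 = 9 ^ 1 := (pow_one 9).symm
        _ ≤ 9 ^ k := Nat.pow_le_pow_right (by norm_num) hk
    haveI : NeZero (3 * (9 ^ k - 1)) := ⟨by omega⟩
    obtain ⟨A, hA1, hA2⟩ := Pool.Agent.H423R2.IN4.exists_set k hk
    apply le_csSup
    · refine ⟨3 * (9 ^ k - 1), ?_⟩
      rintro j ⟨B, rfl, -⟩
      have := Finset.card_le_univ B
      rwa [ZMod.card] at this
    · exact ⟨A, hA1, hA2⟩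
  refine ⟨h1, ?_⟩
  intro ε hε
  rw [Filter.frequently_atTop]
  intro a
  obtain ⟨k0, hk0⟩ := exists_pow_lt_of_lt_one hε (by norm_num : (1 / 3 : ℝ) < 1)
  obtain ⟨k, hk⟩ : ∃ k, k = max k0 (a + 1) := ⟨_, rfl⟩
  have hk1 : 1 ≤ k := by omega
  have hka : a ≤ k := by omega
  have hkk0 : k0 ≤ k := by omega
  have h9 : k < 9 ^ k := Nat.lt_pow_self (by norm_num)
  refine ⟨3 * (9 ^ k - 1), by omega, ?_⟩
  have h2 := h1 k hk1
  have h3 : (3 : ℝ) ^ k - 1 ≤ (tau 4 (3 * (9 ^ k - 1)) : ℝ) := by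
    have h5 : 1 ≤ 3 ^ k := Nat.one_le_pow _ _ (by norm_num)
    have : ((3 ^ k - 1 : ℕ) : ℝ) ≤ (tau 4 (3 * (9 ^ k - 1)) : ℝ) := by exact_mod_cast h2
    rwa [Nat.cast_sub h5, Nat.cast_pow, Nat.cast_one, Nat.cast_ofNat] at this
  have h3pos : (0 : ℝ) < 3 ^ k := by positivity
  have hs3 : 0 < Real.sqrt 3 := Real.sqrt_pos.mpr (by norm_num)
  have hn : ((3 * (9 ^ k - 1) : ℕ) : ℝ) = 3 * (9 ^ k - 1) := by
    have h5 : 1 ≤ 9 ^ k := Nat.one_le_pow _ _ (by norm_num)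
    push_cast [Nat.cast_sub h5]
    ring
  have h9r : (1 : ℝ) < 9 ^ k := one_lt_pow₀ (by norm_num) (by omega)
  have hnpos : (0 : ℝ) < ((3 * (9 ^ k - 1) : ℕ) : ℝ) := by rw [hn]; linarith
  have hsq : Real.sqrt ((3 * (9 ^ k - 1) : ℕ) : ℝ) ≤ Real.sqrt 3 * 3 ^ k := by
    rw [Real.sqrt_le_left (by positivity), mul_pow, Real.sq_sqrt (by norm_num), hn,
      ← pow_mul, mul_comm k 2, pow_mul]
    norm_num
  have hspos : 0 < Real.sqrt ((3 * (9 ^ k - 1) : ℕ) : ℝ) := Real.sqrt_pos.mpr hnpos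
  have hone : (1 : ℝ) ≤ 3 ^ k := one_le_pow₀ (by norm_num)
  have hs1 : 1 ≤ Real.sqrt 3 := by
    rw [Real.one_le_sqrt]; norm_num
  have hpk : (1 / 3 : ℝ) ^ k ≤ ε :=
    (pow_le_pow_of_le_one (by norm_num) (by norm_num) hkk0).trans hk0.le
  calc 1 / Real.sqrt 3 - ε ≤ 1 / Real.sqrt 3 - (1 / 3 : ℝ) ^ k / Real.sqrt 3 := by
        have : (1 / 3 : ℝ) ^ k / Real.sqrt 3 ≤ (1 / 3 : ℝ) ^ k :=
          div_le_self (by positivity) hs1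
        linarith
    _ = (3 ^ k - 1) / (Real.sqrt 3 * 3 ^ k) := by
        rw [one_div_pow]; field_simp
    _ ≤ (3 ^ k - 1) / Real.sqrt ((3 * (9 ^ k - 1) : ℕ) : ℝ) :=
        div_le_div_of_nonneg_left (by linarith) hspos hsq
    _ ≤ _ := div_le_div_of_nonneg_right h3 hspos.le

end Pool.Agent.Results.MP_364e44_co.LimsupLower
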